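import Pool.Agent.Lib.MP_569914_ag.NC.Defs

/-!
# MP_569914_ag: negative curves on the symmetric square of the generic curve are unique
-/

namespace Pool.Agent.MP_569914.NC

variable {g : ℕ} {G Pic Crv : Type} [Group G] [AddCommGroup Pic] [DistribMulAction G Pic]
  [MulAction G Crv] (S : SymSq g G Pic Crv)

theorem cls_smul (σ : G) (Γ : Crv) : S.cls (σ • Γ) = S.cls Γ := by
  unfold SymSq.cls
  rw [S.bundle_smul, S.deg_smul, S.coef_smul]

theorem smul_ne_diag {Γ : Crv} (h : Γ ≠ S.diag) (σ : G) : σ • Γ ≠ S.diag := by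
  intro h1
  apply h
  have h2 : σ • Γ = σ • S.diag := by rw [h1, S.diag_smul]
  exact MulAction.injective σ h2

/-- For `Γ ≠ Δ` of class `(a + b) x - b (δ/2)`: `a ≥ 0` and `a + g b ≥ 0`. -/
theorem basic {Γ : Crv} (h : Γ ≠ S.diag) :
    0 ≤ S.deg (S.bundle Γ) + S.coef Γ ∧
      0 ≤ S.deg (S.bundle Γ) + S.coef Γ - g * S.coef Γ := by
  have h1 := S.nef Γ
  have h2 := S.nonneg Γ S.diag h
  rw [S.bundle_diag, S.coef_diag, map_zero] at h2
  unfold inter at h1 h2
  simp only at h1 h2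
  constructor
  · linarith
  · nlinarith

/-- For a negative curve `b > 0`. -/
theorem coef_neg (hg : 1 ≤ g) {Γ : Crv} (h : S.Negative Γ) : S.coef Γ < 0 := by
  obtain ⟨h0, h1⟩ := h
  obtain ⟨h2, h3⟩ := basic S h0
  unfold SymSq.self SymSq.cls inter at h1
  simp only at h1
  by_contra hcon
  rw [not_lt] at hcon
  have hg' : (1 : ℤ) ≤ g := by exact_mod_cast hg
  set m := S.deg (S.bundle Γ)
  set n := S.coef Γ
  have h4 : (m + n) ^ 2 - g * n ^ 2 < 0 := by nlinarith
  have h5 : (g * n) ^ 2 ≤ (m + n) ^ 2 := by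
    apply pow_le_pow_left₀ (by positivity)
    linarith
  have h6 : (g : ℤ) * n ^ 2 ≤ (g * n) ^ 2 := by
    have : (g : ℤ) * n ^ 2 * 1 ≤ g * n ^ 2 * g := by
      apply mul_le_mul_of_nonneg_left hg' (by positivity)
    nlinarith
  linarith

/-- Two negative curves are equal. -/
theorem unique (hg : 1 ≤ g) {Γ Γ' : Crv} (h : S.Negative Γ) (h' : S.Negative Γ') : Γ = Γ' := by
  by_contra hne
  have h1 := S.nonneg Γ Γ' hne
  have hn := coef_neg S hg h
  have hn' := coef_neg S hg h'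
  have ha := (basic S h.1).1
  have ha' := (basic S h'.1).1
  have hs := h.2
  have hs' := h'.2
  unfold SymSq.self SymSq.cls inter at hs hs'
  unfold inter at h1
  simp only at hs hs' h1
  set m := S.deg (S.bundle Γ)
  set n := S.coef Γ
  set m' := S.deg (S.bundle Γ')
  set n' := S.coef Γ'
  have e1 : (m + n) ^ 2 < g * n ^ 2 := by nlinarith
  have e2 : (m' + n') ^ 2 < g * n' ^ 2 := by nlinarith
  have e3 : (g : ℤ) * (n * n') ≤ (m + n) * (m' + n') := by nlinarith
  have hnn : 0 < n * n' := mul_pos_of_neg_of_neg hn hn'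
  have hg' : (1 : ℤ) ≤ g := by exact_mod_cast hg
  have e4 : ((g : ℤ) * (n * n')) ^ 2 ≤ ((m + n) * (m' + n')) ^ 2 :=
    pow_le_pow_left₀ (by positivity) e3 2
  have e5 : (m + n) ^ 2 * (m' + n') ^ 2 < (g * n ^ 2) * (g * n' ^ 2) := by
    have p1 : 0 < (g : ℤ) * n' ^ 2 := lt_of_le_of_lt (sq_nonneg _) e2
    calc (m + n) ^ 2 * (m' + n') ^ 2 ≤ (m + n) ^ 2 * (g * n' ^ 2) :=
          mul_le_mul_of_nonneg_left e2.le (sq_nonneg _)
      _ < (g * n ^ 2) * (g * n' ^ 2) := mul_lt_mul_of_pos_right e1 p1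
  nlinarith

/-- The line bundle of a negative curve is `(k K)(2) ⊗ O(n δ/2)`. -/
theorem bundle_eq (hg : 1 ≤ g) {Γ : Crv} (h : S.Negative Γ) :
    ∃ k : ℤ, S.bundle Γ = k • S.canon := by
  apply S.franchetta
  intro σ
  have h1 : S.Negative (σ • Γ) := by
    refine ⟨smul_ne_diag S h.1 σ, ?_⟩
    unfold SymSq.self
    rw [cls_smul]
    exact h.2
  rw [← S.bundle_smul, unique S hg h1 h]

/-- If no curve is negative, then every effective class `(a + b) x - b (δ/2)` with `b > 0` has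
`a² ≥ g b²`. -/
theorem exists_negative {L : Pic} {n : ℤ} (h : S.Effective L n) (hn : n < 0)
    (hself : (S.deg L + n) ^ 2 < g * n ^ 2) : ∃ Γ : Crv, S.Negative Γ := by
  obtain ⟨c, hc, hc'⟩ := h
  by_contra hcon
  push Not at hcon
  have key : ∀ Γ : Crv, 0 ≤ ((S.deg (S.bundle Γ) + S.coef Γ : ℤ) : ℝ) +
      Real.sqrt g * ((S.coef Γ : ℤ) : ℝ) := by
    intro Γ
    by_cases hd : Γ = S.diag
    · rw [hd, S.bundle_diag, S.coef_diag, map_zero]
      push_cast
      have := Real.sqrt_nonneg (g : ℝ)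
      linarith
    · have h1 : ¬ S.self Γ < 0 := fun h1 => hcon Γ ⟨hd, h1⟩
      unfold SymSq.self SymSq.cls inter at h1
      simp only at h1
      rw [not_lt] at h1
      have ha := (basic S hd).1
      set m := S.deg (S.bundle Γ)
      set q := S.coef Γ
      have h2 : (g : ℤ) * q ^ 2 ≤ (m + q) ^ 2 := by nlinarith
      have h3 : ((g : ℝ)) * (q : ℝ) ^ 2 ≤ (((m + q : ℤ)) : ℝ) ^ 2 := by exact_mod_cast h2
      have ha' : (0 : ℝ) ≤ ((m + q : ℤ) : ℝ) := by exact_mod_cast ha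
      have h4 : |Real.sqrt g * (q : ℝ)| ≤ ((m + q : ℤ) : ℝ) := by
        apply abs_le_of_sq_le_sq _ ha'
        rw [mul_pow, Real.sq_sqrt (by positivity)]
        exact h3
      have h5 := (abs_le.1 h4).1
      linarith
  have hsum : 0 ≤ ((S.deg L + n : ℤ) : ℝ) + Real.sqrt g * (n : ℝ) := by
    have e1 : S.deg L = c.sum fun Γ m => m • S.deg (S.bundle Γ) := by
      rw [← hc, map_finsuppSum]
      simp only [map_nsmul]
    have e2 : ((S.deg L + n : ℤ) : ℝ) + Real.sqrt g * (n : ℝ) =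
        c.sum fun Γ m => (m : ℝ) * (((S.deg (S.bundle Γ) + S.coef Γ : ℤ) : ℝ) +
          Real.sqrt g * ((S.coef Γ : ℤ) : ℝ)) := by
      rw [e1, ← hc']
      unfold Finsupp.sum
      push_cast
      rw [Finset.mul_sum, ← Finset.sum_add_distrib, ← Finset.sum_add_distrib]
      refine Finset.sum_congr rfl fun Γ _ => ?_
      simp only [nsmul_eq_mul]
      push_cast
      ring
    rw [e2]
    exact Finset.sum_nonneg fun Γ _ => mul_nonneg (by positivity) (key Γ)
  have hn' : (n : ℝ) < 0 := by exact_mod_cast hn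
  have h6 : (Real.sqrt g * -(n : ℝ)) ^ 2 ≤ ((S.deg L + n : ℤ) : ℝ) ^ 2 :=
    pow_le_pow_left₀ (mul_nonneg (Real.sqrt_nonneg _) (by linarith)) (by linarith) 2
  rw [mul_pow, Real.sq_sqrt (by positivity), neg_sq] at h6
  have h7 : (g : ℤ) * n ^ 2 ≤ (S.deg L + n) ^ 2 := by exact_mod_cast h6
  linarith

end Pool.Agent.MP_569914.NC
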