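import Mathlib

/-!
# MP_569914_ag: the symmetric square of the generic curve of genus `g`

Let `F` be the function field of the moduli space of curves of genus `g` over `ℂ` and `C` the
generic curve over an algebraic closure of `F`. The Galois group `G` of `F` acts on the Picard group
of `C` and on the set of the irreducible curves on the symmetric square `C(2)`.
-/

namespace Pool.Agent.MP_569914.NC

/-- The intersection form of the Néron-Severi group `ℤ x ⊕ ℤ (δ/2)` of `C(2)`: `x² = 1`,
`x (δ/2) = 1`, `(δ/2)² = 1 - g`. The pair `(m, n)` is the class `m x + n (δ/2)`. -/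
def inter (g : ℕ) (u v : ℤ × ℤ) : ℤ :=
  u.1 * v.1 + u.1 * v.2 + u.2 * v.1 + (1 - g) * (u.2 * v.2)

/-- The symmetric square `C(2)` of the generic curve `C` of genus `g`: the Galois group `G`, the
Picard group `Pic` of `C` and the set `Crv` of the irreducible curves on `C(2)`, with the published
facts which are used. Each line bundle on `C(2)` is `L(2) ⊗ O(n δ/2)` for a unique line bundle `L`
on `C` and a unique integer `n`; its class is `deg(L) x + n (δ/2)`. -/
structure SymSq (g : ℕ) (G Pic Crv : Type) [Group G] [AddCommGroup Pic] [DistribMulAction G Pic]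
    [MulAction G Crv] where
  /-- the degree of a line bundle on `C` -/
  deg : Pic →+ ℤ
  /-- the degree is invariant -/
  deg_smul : ∀ (σ : G) (L : Pic), deg (σ • L) = deg L
  /-- the canonical bundle `K` of `C` -/
  canon : Pic
  /-- `deg K = 2 g - 2` -/
  deg_canon : deg canon = 2 * g - 2
  /-- The strong Franchetta conjecture, a theorem of Mestrano and Kouvidakis: a rational section of
  the universal Picard variety over the moduli space of curves is a multiple of `K`. -/
  franchetta : ∀ L : Pic, (∀ σ : G, σ • L = L) → ∃ k : ℤ, L = k • canon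
  /-- the diagonal `Δ` -/
  diag : Crv
  /-- the line bundle `L` on `C` with `O(Γ) = L(2) ⊗ O(n δ/2)` -/
  bundle : Crv → Pic
  /-- the integer `n` with `O(Γ) = L(2) ⊗ O(n δ/2)` -/
  coef : Crv → ℤ
  /-- `G` acts on the curves and their line bundles -/
  bundle_smul : ∀ (σ : G) (Γ : Crv), bundle (σ • Γ) = σ • bundle Γ
  /-- the class `δ/2` is invariant -/
  coef_smul : ∀ (σ : G) (Γ : Crv), coef (σ • Γ) = coef Γ
  /-- the diagonal is invariant -/
  diag_smul : ∀ σ : G, σ • diag = diag
  /-- `O(Δ) = O(δ)` -/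
  bundle_diag : bundle diag = 0
  /-- `O(Δ) = O(δ)` -/
  coef_diag : coef diag = 2
  /-- two different irreducible curves have a nonnegative intersection number -/
  nonneg : ∀ Γ Γ' : Crv, Γ ≠ Γ' →
    0 ≤ inter g (deg (bundle Γ), coef Γ) (deg (bundle Γ'), coef Γ')
  /-- `x` is nef -/
  nef : ∀ Γ : Crv, 0 ≤ inter g (deg (bundle Γ), coef Γ) (1, 0)
  /-- Riemann-Hurwitz: the preimage of `Γ` in `C × C` has the degree `Γ x` over `C`; with the
  adjunction formula, `Γ² ≥ -(g - 1) (Γ x)` -/
  hurwitz : ∀ Γ : Crv, Γ ≠ diag → -((g - 1) * inter g (deg (bundle Γ), coef Γ) (1, 0)) ≤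
    inter g (deg (bundle Γ), coef Γ) (deg (bundle Γ), coef Γ)

variable {g : ℕ} {G Pic Crv : Type} [Group G] [AddCommGroup Pic] [DistribMulAction G Pic]
  [MulAction G Crv]

/-- the class of `Γ` -/
def SymSq.cls (S : SymSq g G Pic Crv) (Γ : Crv) : ℤ × ℤ := (S.deg (S.bundle Γ), S.coef Γ)

/-- the self-intersection number of `Γ` -/
def SymSq.self (S : SymSq g G Pic Crv) (Γ : Crv) : ℤ := inter g (S.cls Γ) (S.cls Γ)

/-- `Γ` has negative self-intersection and is not the diagonal -/
def SymSq.Negative (S : SymSq g G Pic Crv) (Γ : Crv) : Prop := Γ ≠ S.diag ∧ S.self Γ < 0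

/-- The bound `s` for the slopes of curves: if the class of `Γ ≠ Δ` is `(a + b) x - b (δ/2)`, then
`a ≥ s b`. -/
def SymSq.Slope (S : SymSq g G Pic Crv) (s : ℚ) : Prop :=
  ∀ Γ : Crv, Γ ≠ S.diag → s * -(S.coef Γ) ≤ S.deg (S.bundle Γ) + S.coef Γ

/-- `L(2) ⊗ O(n δ/2)` has a nonzero section: it is the line bundle of an effective divisor
`∑ c(Γ) Γ` on `C(2)`. -/
def SymSq.Effective (S : SymSq g G Pic Crv) (L : Pic) (n : ℤ) : Prop :=
  ∃ c : Crv →₀ ℕ, (c.sum fun Γ m => m • S.bundle Γ) = L ∧ (c.sum fun Γ m => m • S.coef Γ) = n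

end Pool.Agent.MP_569914.NC
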