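import Pool.Agent.Lib.MP_569914_ag.NC.Calc

/-!
# MP_569914_ag: models of the data

The inequalities for `k` and `b` are the only consequences of the data: for all `g`, `k`, `b` which
satisfy them there is a model with a curve of the class `2 k (g - 1) x - b (δ/2)`.
-/

namespace Pool.Agent.MP_569914.NC

/-- the trivial action on the integers -/
@[reducible] def triv : DistribMulAction PUnit.{1} ℤ where
  smul _ n := n
  one_smul _ := rfl
  mul_smul _ _ _ := rfl
  smul_zero _ := rfl
  smul_add _ _ _ := rfl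

/-- the trivial action on a set with two elements -/
@[reducible] def trivB : MulAction PUnit.{1} Bool where
  smul _ n := n
  one_smul _ := rfl
  mul_smul _ _ _ := rfl

attribute [local instance] triv trivB

theorem exists_model (g k b : ℕ) (hg : 1 ≤ g) (hb : 1 ≤ b)
    (hlow : 4 * g * k ^ 2 < (b + 2 * k) ^ 2)
    (hup : (b + 2 * k) ^ 2 + (b + 2 * k) ≤ 4 * g * k ^ 2 + 2 * g * k) :
    ∃ S : SymSq g PUnit.{1} ℤ Bool, S.Negative true ∧
      S.cls true = (2 * (k : ℤ) * (g - 1), -(b : ℤ)) ∧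
      ∀ s : ℚ, (s + 1) * b ≤ 2 * k * (g - 1) → S.Slope s := by
  have hup' : ((b : ℤ) + 2 * k) ^ 2 + (b + 2 * k) ≤ 4 * g * k ^ 2 + 2 * g * k := by
    exact_mod_cast hup
  have hlow' : 4 * (g : ℤ) * k ^ 2 < (b + 2 * k) ^ 2 := by exact_mod_cast hlow
  have hg' : (1 : ℤ) ≤ g := by exact_mod_cast hg
  have hk0 : (0 : ℤ) ≤ k := by positivity
  have hb0 : (0 : ℤ) ≤ b := by positivity
  have hprod : 0 ≤ (k : ℤ) * ((g : ℤ) - 1) := mul_nonneg hk0 (by linarith)
  have hprod2 : 0 ≤ ((g : ℤ) - 1) * (b : ℤ) := mul_nonneg (by linarith) hb0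
  have hg2 : (g : ℤ) ≠ 1 := by
    intro h1
    rw [h1] at hup' hlow'
    have hb1 : (1 : ℤ) ≤ b := by exact_mod_cast hb
    nlinarith
  have hdiv : ∀ n : ℤ, (AddMonoidHom.mulLeft (2 * (g : ℤ) - 2)) n = (2 * g - 2) * n :=
    fun n => rfl
  refine ⟨{ deg := AddMonoidHom.mulLeft (2 * (g : ℤ) - 2)
            deg_smul := fun _ _ => rfl
            canon := 1
            deg_canon := by rw [hdiv, mul_one]
            franchetta := fun L _ => ⟨L, by simp⟩
            diag := false
            bundle := fun x => if x then (k : ℤ) else 0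
            coef := fun x => if x then -(b : ℤ) else 2
            bundle_smul := fun _ _ => rfl
            coef_smul := fun _ _ => rfl
            diag_smul := fun _ => rfl
            bundle_diag := rfl
            coef_diag := rfl
            nonneg := ?_
            nef := ?_
            hurwitz := ?_ }, ⟨Bool.noConfusion, ?_⟩, ?_, ?_⟩
  · intro Γ Γ' hne
    rw [hdiv, hdiv]
    unfold inter
    cases Γ <;> cases Γ' <;> simp at hne ⊢ <;> nlinarith
  · intro Γ
    rw [hdiv]
    unfold inter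
    cases Γ
    · simp
    · simp
      nlinarith
  · intro Γ hne
    rw [hdiv]
    unfold inter
    cases Γ
    · exact absurd rfl hne
    · simp only [if_true]
      have h4 : ((b : ℤ) + 2 * k) ^ 2 - 4 * g * k ^ 2 ≤ 2 * g * k - ((b : ℤ) + 2 * k) := by
        linarith
      have h5 := mul_le_mul_of_nonneg_left h4 (show (0 : ℤ) ≤ g - 1 by linarith)
      nlinarith
  · show inter g (_, _) (_, _) < 0
    unfold inter
    show (2 * (g : ℤ) - 2) * k * ((2 * g - 2) * k) + (2 * g - 2) * k * (-b) +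
      (-b) * ((2 * g - 2) * k) + (1 - g) * (-b * -b) < 0
    have h5 : 0 < ((g : ℤ) - 1) * (((b : ℤ) + 2 * k) ^ 2 - 4 * g * k ^ 2) := by
      apply mul_pos
      · have : (1 : ℤ) < g := lt_of_le_of_ne hg' (Ne.symm hg2)
        linarith
      · linarith
    nlinarith
  · show ((2 * (g : ℤ) - 2) * k, -(b : ℤ)) = _
    congr 1
    ring
  · intro s hs Γ hne
    cases Γ
    · exact absurd rfl hne
    · show s * -((-(b : ℤ) : ℤ) : ℚ) ≤ (((2 * (g : ℤ) - 2) * k : ℤ) : ℚ) + ((-(b : ℤ) : ℤ) : ℚ)
      push_cast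
      linarith

/-- In genus `5, 6, 7, 8, 10` the smallest `b` are attained in models. -/
theorem exists_five : ∃ S : SymSq 5 PUnit.{1} ℤ Bool, S.Negative true ∧ S.coef true = -47 ∧
    S.Slope (20 / 9) := by
  obtain ⟨S, h1, h2, h3⟩ := exists_model 5 19 47 (by norm_num) (by norm_num) (by norm_num)
    (by norm_num)
  exact ⟨S, h1, congrArg Prod.snd h2, h3 _ (by norm_num)⟩

theorem exists_six : ∃ S : SymSq 6 PUnit.{1} ℤ Bool, S.Negative true ∧ S.coef true = -29 ∧
    S.Slope (39 / 16) := by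
  obtain ⟨S, h1, h2, h3⟩ := exists_model 6 10 29 (by norm_num) (by norm_num) (by norm_num)
    (by norm_num)
  exact ⟨S, h1, congrArg Prod.snd h2, h3 _ (by norm_num)⟩

theorem exists_seven : ∃ S : SymSq 7 PUnit.{1} ℤ Bool, S.Negative true ∧ S.coef true = -33 ∧
    S.Slope (29 / 11) := by
  obtain ⟨S, h1, h2, h3⟩ := exists_model 7 10 33 (by norm_num) (by norm_num) (by norm_num)
    (by norm_num)
  exact ⟨S, h1, congrArg Prod.snd h2, h3 _ (by norm_num)⟩

theorem exists_eight : ∃ S : SymSq 8 PUnit.{1} ℤ Bool, S.Negative true ∧ S.coef true = -128 ∧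
    S.Slope (48 / 17) := by
  obtain ⟨S, h1, h2, h3⟩ := exists_model 8 35 128 (by norm_num) (by norm_num) (by norm_num)
    (by norm_num)
  exact ⟨S, h1, congrArg Prod.snd h2, h3 _ (by norm_num)⟩

theorem exists_ten : ∃ S : SymSq 10 PUnit.{1} ℤ Bool, S.Negative true ∧ S.coef true = -333 ∧
    S.Slope (117 / 37) := by
  obtain ⟨S, h1, h2, h3⟩ := exists_model 10 77 333 (by norm_num) (by norm_num) (by norm_num)
    (by norm_num)
  exact ⟨S, h1, congrArg Prod.snd h2, h3 _ (by norm_num)⟩

end Pool.Agent.MP_569914.NC
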